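import Pool.Agent.Helper54_SPX.Ppc

/-!
# SPX, row NZR: Weyl vectors near one energy
-/

set_option autoImplicit false

open MeasureTheory ProbabilityTheory Filter

open scoped InnerProductSpace ENNReal Topology ComplexConjugate

noncomputable section

namespace Pool.Agent.SPX.H89

open Pool.Agent.Anderson Pool.Agent.Loc Pool.Agent.Helper54.Bal Pool.Agent.LE.CH Pool.Agent.SPX

variable {d : ℕ}

theorem nzr (hex : ExmStmt) (hop : OpnStmt) : NzrStmt := by
  intro d V I E r hsp hr hI
  obtain ⟨φ, h1, _, h2⟩ := hsp E rfl (r / 2) (half_pos hr)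
  obtain ⟨_, q, hq1, hq2⟩ := h2
  obtain ⟨μ, hμ⟩ := hex d V φ
  refine ⟨φ, μ, hμ, fun h0 => ?_⟩
  have h3 : μ (Set.Icc (E - r) (E + r)) = 0 := measure_mono_null hI h0
  have h4 := (hop d V φ μ _ hμ).2 isClosed_Icc h3
  have h5 : ∀ x, (q + (E : ℂ) • φ : L2 d) x = lap φ x + (V x : ℂ) * φ x := by
    intro x
    have := hq2 x
    rw [lp.coeFn_add, Pi.add_apply, lp.coeFn_smul, Pi.smul_apply, smul_eq_mul]
    linear_combination -this
  have h6 := H54.wtq_limit hr.le h5 h4
  rw [h1, add_sub_cancel_right] at h6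
  linarith

end Pool.Agent.SPX.H89
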