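import Pool.Agent.Helper54_SPX.Dom

/-!
# SPX, row SAJ: `H = Δ + V` with its maximal domain is self-adjoint
-/

set_option autoImplicit false

open Filter LinearPMap

open scoped InnerProductSpace ENNReal Topology ComplexConjugate

noncomputable section

namespace Pool.Agent.SPX.H89

open Pool.Agent.Anderson Pool.Agent.Loc Pool.Agent.Helper54.Bal Pool.Agent.LE.CH Pool.Agent.SPX

variable {d : ℕ}

theorem I_im : (Complex.I).im ≠ 0 := by simp

theorem dense_dom (V : Site d → ℝ) : Dense ((ham V).domain : Set (L2 d)) := by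
  have h := (isRes_G V).dense_range I_im
  refine Dense.mono ?_ h
  rintro x ⟨f, rfl⟩
  exact ((H54.dom d V Complex.I I_im).1 f).1

theorem symm_ham (V : Site d → ℝ) : (ham V).IsFormalAdjoint (ham V) := by
  intro u v
  have hc : (conj Complex.I).im ≠ 0 := conj_im_ne I_im
  have hu := H54.G_ham V I_im u
  have hv := H54.G_ham V hc v
  have h1 := (isRes_G V).adj Complex.I I_im (ham V u - Complex.I • (u : L2 d))
    (ham V v - conj Complex.I • (v : L2 d))
  rw [hu, hv, inner_sub_left, inner_sub_right, inner_smul_left, inner_smul_right] at h1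
  linear_combination -h1

theorem saj : SajStmt := by
  intro d V
  rw [isSelfAdjoint_def]
  have hle : ham V ≤ (ham V).adjoint := (symm_ham V).le_adjoint (dense_dom V)
  symm
  refine LinearPMap.eq_of_le_of_domain_eq hle (le_antisymm hle.1 ?_)
  intro y hy
  have hc : (conj Complex.I).im ≠ 0 := conj_im_ne I_im
  set w : L2 d := (ham V).adjoint ⟨y, hy⟩ with hw
  have hf := LinearPMap.adjoint_isFormalAdjoint (dense_dom V)
  obtain ⟨hd, hu⟩ := (H54.dom d V Complex.I I_im).1 (w - Complex.I • y)
  set u : L2 d := G V Complex.I (w - Complex.I • y) with hudef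
  have key : ∀ g : L2 d, ⟪y - u, g⟫_ℂ = 0 := by
    intro g
    obtain ⟨hvd, hv⟩ := (H54.dom d V (conj Complex.I) hc).1 g
    have h1 := hf ⟨y, hy⟩ ⟨G V (conj Complex.I) g, hvd⟩
    have h2 := symm_ham V ⟨u, hd⟩ ⟨G V (conj Complex.I) g, hvd⟩
    rw [hv] at h1 h2
    rw [← hw] at h1
    rw [hu] at h2
    simp only [inner_add_right, inner_add_left, inner_sub_left, inner_smul_left, inner_smul_right]
      at h1 h2 ⊢
    linear_combination h2 - h1
  have h0 : y - u = 0 := by
    have := key (y - u)
    exact inner_self_eq_zero.1 this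
  rw [sub_eq_zero.1 h0]
  exact hd

end Pool.Agent.SPX.H89
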