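import Pool.Agent.Helper54_SPX.Dom

/-!
# SPX, row WTB: the smoothed spectral measure
-/

set_option autoImplicit false

open MeasureTheory ProbabilityTheory Filter

open scoped InnerProductSpace ENNReal Topology ComplexConjugate

noncomputable section

namespace Pool.Agent.SPX.H89

open Pool.Agent.Anderson Pool.Agent.Loc Pool.Agent.Helper54.Bal Pool.Agent.LE.CH Pool.Agent.SPX

variable {d : ℕ}

theorem inv_im_eq (t E η : ℝ) : (((t : ℂ) - zz η E)⁻¹).im = η / ((E - t) ^ 2 + η ^ 2) := by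
  rw [Complex.inv_im, Complex.normSq_apply]
  simp only [Complex.sub_re, Complex.sub_im, Complex.ofReal_re, Complex.ofReal_im, zz_re, zz_im,
    zero_sub, neg_neg]
  congr 1
  ring

theorem norm_inv_le {z : ℂ} (hz : z.im ≠ 0) (t : ℝ) : ‖((t : ℂ) - z)⁻¹‖ ≤ |z.im|⁻¹ := by
  rw [norm_inv]
  have h1 : |z.im| ≤ ‖(t : ℂ) - z‖ := by
    have h2 := Complex.abs_im_le_norm ((t : ℂ) - z)
    simpa using h2
  exact inv_anti₀ (abs_pos.2 hz) h1

theorem integrable_inv {μ : Measure ℝ} [IsFiniteMeasure μ] {z : ℂ} (hz : z.im ≠ 0) :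
    Integrable (fun t : ℝ => ((t : ℂ) - z)⁻¹) μ := by
  refine Integrable.of_bound (C := |z.im|⁻¹) ?_ (Eventually.of_forall fun t => norm_inv_le hz t)
  exact (Measurable.inv (by fun_prop)).aestronglyMeasurable

theorem integrable_ker {μ : Measure ℝ} [IsFiniteMeasure μ] {η : ℝ} (hη : 0 < η) (E : ℝ) :
    Integrable (fun t : ℝ => η / Real.pi / ((E - t) ^ 2 + η ^ 2)) μ := by
  have hz : (zz η E).im ≠ 0 := by
    rw [zz_im]
    exact hη.ne'
  have h1 := ((integrable_inv (μ := μ) hz).im).const_mul (Real.pi)⁻¹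
  refine h1.congr (Eventually.of_forall fun t => ?_)
  show (Real.pi)⁻¹ * (((t : ℂ) - zz η E)⁻¹).im = _
  rw [inv_im_eq]
  ring

theorem wt_key {V : Site d → ℝ} {u : L2 d} {μ : Measure ℝ} (hμ : SpecM V u μ) {η : ℝ} (hη : 0 < η)
    (E : ℝ) : ENNReal.ofReal (η / Real.pi * ‖G V (zz η E) u‖ ^ 2) =
      ∫⁻ t, ENNReal.ofReal (η / Real.pi / ((E - t) ^ 2 + η ^ 2)) ∂μ := by
  obtain ⟨hfin, h⟩ := hμ
  have hz : (zz η E).im ≠ 0 := by
    rw [zz_im]
    exact hη.ne'
  have h1 := h (zz η E) hz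
  have h2 := (isRes_G V).im_inner hz u
  rw [h1, zz_im] at h2
  have h3 : (∫ t : ℝ, ((t : ℂ) - zz η E)⁻¹ ∂μ).im = ∫ t : ℝ, (((t : ℂ) - zz η E)⁻¹).im ∂μ :=
    (integral_im (integrable_inv hz)).symm
  rw [← ofReal_integral_eq_lintegral_ofReal (integrable_ker hη E)
    (Eventually.of_forall fun t => by positivity)]
  have h4 : ∫ t : ℝ, η / Real.pi / ((E - t) ^ 2 + η ^ 2) ∂μ =
      (Real.pi)⁻¹ * ∫ t : ℝ, (((t : ℂ) - zz η E)⁻¹).im ∂μ := by
    rw [← integral_const_mul]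
    refine integral_congr_ae (Eventually.of_forall fun t => ?_)
    show η / Real.pi / ((E - t) ^ 2 + η ^ 2) = (Real.pi)⁻¹ * (((t : ℂ) - zz η E)⁻¹).im
    rw [inv_im_eq]
    ring
  rw [h4, ← h3, h2]
  congr 1
  ring

theorem wtb : WtbStmt := by
  intro d V u μ S η hμ hη hS
  have hfin : IsFiniteMeasure μ := hμ.1
  unfold wt
  rw [← lintegral_lintegral_swap]
  · exact lintegral_congr fun E => wt_key hμ hη E
  · have hm : Measurable (Function.uncurry fun E t : ℝ =>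
        ENNReal.ofReal (η / Real.pi / ((E - t) ^ 2 + η ^ 2))) := by
      unfold Function.uncurry
      fun_prop
    exact hm.aemeasurable

end Pool.Agent.SPX.H89
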